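import Pool.Agent.H25.DP.Defs

/-!
# Two dilations: basic lemmas
-/

set_option autoImplicit false

open Complex MeasureTheory Set

namespace Pool.Agent.H25.DP

open Pool.Agent.H25.DL

lemma continuous_om : Continuous om := by unfold om; fun_prop

lemma om_zero : om 0 = 0 := by simp [om]

lemma om_one : om 1 = 0 := by simp [om]

lemma om_nonneg {x : ℝ} (h0 : 0 ≤ x) (h1 : x ≤ 1) : 0 ≤ om x := by
  unfold om
  have : 0 ≤ x * (1 - x) := mul_nonneg h0 (by linarith)
  positivity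

lemma om_le_one {x : ℝ} (h0 : 0 ≤ x) (h1 : x ≤ 1) : om x ≤ 1 := by
  unfold om
  have h : 0 ≤ x * (1 - x) := mul_nonneg h0 (by linarith)
  have h2 : x * (1 - x) ≤ 1 / 4 := by nlinarith [sq_nonneg (x - 1 / 2)]
  have h3 : (x * (1 - x)) ^ 3 ≤ (1 / 4) ^ 3 := pow_le_pow_left₀ h h2 3
  linarith

/-- the derivative of `om` -/
noncomputable def om' (x : ℝ) : ℝ := 192 * (x * (1 - x)) ^ 2 * (1 - 2 * x)

/-- the second derivative of `om` -/
noncomputable def om'' (x : ℝ) : ℝ :=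
  384 * (x * (1 - x)) * (1 - 2 * x) ^ 2 - 384 * (x * (1 - x)) ^ 2

lemma hasDerivAt_om (x : ℝ) : HasDerivAt om (om' x) x := by
  have h1 : HasDerivAt (fun x : ℝ => x * (1 - x)) (1 - 2 * x) x := by
    have := (hasDerivAt_id x).mul ((hasDerivAt_id x).const_sub 1)
    refine this.congr_deriv ?_
    simp
    ring
  have h2 := (h1.pow 3).const_mul 64
  refine h2.congr_deriv ?_
  unfold om'
  norm_num
  ring

lemma hasDerivAt_om' (x : ℝ) : HasDerivAt om' (om'' x) x := by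
  have h1 : HasDerivAt (fun x : ℝ => x * (1 - x)) (1 - 2 * x) x := by
    have := (hasDerivAt_id x).mul ((hasDerivAt_id x).const_sub 1)
    refine this.congr_deriv ?_
    simp
    ring
  have h3 : HasDerivAt (fun x : ℝ => 1 - 2 * x) (-2) x := by
    have := ((hasDerivAt_id x).const_mul 2).const_sub 1
    refine this.congr_deriv ?_
    simp
  have h2 := ((h1.pow 2).const_mul 192).mul h3
  refine h2.congr_deriv ?_
  unfold om''
  norm_num
  ring

lemma om'_zero : om' 0 = 0 := by simp [om']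

lemma om'_one : om' 1 = 0 := by simp [om']

lemma abs_om_le {x : ℝ} (h0 : 0 ≤ x) (h1 : x ≤ 1) : |om x| ≤ 1 := by
  rw [abs_of_nonneg (om_nonneg h0 h1)]
  exact om_le_one h0 h1

lemma abs_om'_le {x : ℝ} (h0 : 0 ≤ x) (h1 : x ≤ 1) : |om' x| ≤ 12 := by
  unfold om'
  have h : 0 ≤ x * (1 - x) := mul_nonneg h0 (by linarith)
  have h2 : x * (1 - x) ≤ 1 / 4 := by nlinarith [sq_nonneg (x - 1 / 2)]
  have h3 : (x * (1 - x)) ^ 2 ≤ (1 / 4) ^ 2 := pow_le_pow_left₀ h h2 2
  have h4 : |1 - 2 * x| ≤ 1 := by rw [abs_le]; constructor <;> linarith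
  rw [abs_mul, abs_of_nonneg (by positivity)]
  calc 192 * (x * (1 - x)) ^ 2 * |1 - 2 * x| ≤ 192 * (1 / 4) ^ 2 * 1 := by gcongr
    _ = 12 := by norm_num

lemma abs_om''_le {x : ℝ} (h0 : 0 ≤ x) (h1 : x ≤ 1) : |om'' x| ≤ 96 := by
  unfold om''
  have h : 0 ≤ x * (1 - x) := mul_nonneg h0 (by linarith)
  have h2 : x * (1 - x) ≤ 1 / 4 := by nlinarith [sq_nonneg (x - 1 / 2)]
  have h3 : (1 - 2 * x) ^ 2 = 1 - 4 * (x * (1 - x)) := by ring
  rw [h3, abs_le]
  constructor <;> nlinarith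

lemma norm_en (n : ℕ) (t : ℝ) : ‖en n t‖ = 1 := by
  unfold en
  rw [Complex.norm_exp_ofReal_mul_I]

lemma continuous_en (n : ℕ) : Continuous (en n) := by unfold en; fun_prop

lemma en_mul {m n : ℕ} (hm : m ≠ 0) (hn : n ≠ 0) (t : ℝ) : en (m * n) t = en m t * en n t := by
  unfold en
  rw [← Complex.exp_add]
  congr 1
  have h1 : (m : ℝ) ≠ 0 := by exact_mod_cast hm
  have h2 : (n : ℝ) ≠ 0 := by exact_mod_cast hn
  rw [Nat.cast_mul, Real.log_mul h1 h2]
  push_cast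
  ring

/-- one block in terms of `en` -/
lemma block_en (f : Fac) (j : ℕ) (t : ℝ) :
    f.B j (1 / 2 + t * I) = ∑ n ∈ Finset.Ico (2 ^ j) (2 ^ (j + 1)),
      (f.c n * (n : ℂ) ^ (-(1 / 2 + f.τ * I) : ℂ)) * en n (f.r * t) := by
  unfold Fac.B
  refine Finset.sum_congr rfl fun n hn => ?_
  rw [Finset.mem_Ico] at hn
  have hn0 : n ≠ 0 := by
    have : 0 < 2 ^ j := by positivity
    omega
  have hn1 : (n : ℂ) ≠ 0 := by exact_mod_cast hn0
  rw [mul_assoc]
  congr 1
  have h1 : -(wl f.r f.τ (1 / 2 + t * I)) = -(1 / 2 + f.τ * I) + (-(f.r * t : ℝ) : ℂ) * I := by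
    unfold wl
    push_cast
    ring
  rw [h1, Complex.cpow_add _ _ hn1]
  congr 1
  rw [Complex.cpow_def_of_ne_zero hn1, en, ← Complex.natCast_log]
  congr 1
  push_cast
  ring

variable {ι : Type} [Fintype ι]

lemma SZ_pos (j : ι → ℕ) : 1 ≤ SZ j := by
  unfold SZ
  exact Nat.one_le_iff_ne_zero.2 (Finset.prod_ne_zero_iff.2 fun l _ => by positivity)

lemma SZ_cast (j : ι → ℕ) : (SZ j : ℝ) = ∏ l, (2 : ℝ) ^ j l := by
  unfold SZ
  push_cast
  rfl

/-- splitting a product of blocks into two classes -/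
lemma Pj_split (f : ι → Fac) (P : ι → Prop) [DecidablePred P] (j : ι → ℕ) (s : ℂ) :
    Pj f j s = Pj (fun l : {l // P l} => f l) (fun l => j l) s *
      Pj (fun l : {l // ¬P l} => f l) (fun l => j l) s := by
  unfold Pj
  exact (Fintype.prod_subtype_mul_prod_subtype P fun l => (f l).B (j l) s).symm

lemma SZ_split (P : ι → Prop) [DecidablePred P] (j : ι → ℕ) :
    SZ j = SZ (fun l : {l // P l} => j l) * SZ (fun l : {l // ¬P l} => j l) := by
  unfold SZ
  exact (Fintype.prod_subtype_mul_prod_subtype P fun l => 2 ^ j l).symm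

lemma sqrt_SZ (j : ι → ℕ) : Real.sqrt (SZ j) = ∏ l, (2 : ℝ) ^ ((j l : ℝ) / 2) := by
  rw [SZ_cast, Real.sqrt_eq_rpow, ← Real.finsetProd_rpow _ _ fun l _ => by positivity]
  refine Finset.prod_congr rfl fun l _ => ?_
  rw [← Real.rpow_natCast, ← Real.rpow_mul two_pos.le]
  congr 1
  ring

/-- the size of the main tuples -/
lemma SZ_le_of_mem {f : ι → Fac} {μ D T : ℝ} (hμ : 0 < μ) (hT : 1 ≤ T)
    (hr : ∀ l, μ ≤ (f l).r) {j : ι → ℕ} (hj : j ∈ mains f μ D T) :
    (SZ j : ℝ) ≤ T ^ (D / μ) := by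
  classical
  have hT0 : 0 < T := by linarith
  have h1 : ∑ l, (j l : ℝ) * (f l).r * Real.log 2 ≤ D * Real.log T := by
    unfold mains at hj
    exact (Finset.mem_filter.1 hj).2
  have hlog2 : 0 < Real.log 2 := Real.log_pos one_lt_two
  have h2 : μ * Real.log (SZ j) ≤ D * Real.log T := by
    refine le_trans ?_ h1
    rw [SZ_cast, Real.log_prod fun l _ => by positivity, Finset.mul_sum]
    refine Finset.sum_le_sum fun l _ => ?_
    rw [Real.log_pow]
    have h3 : (0 : ℝ) ≤ j l := Nat.cast_nonneg _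
    have h4 := hr l
    have : (j l : ℝ) * μ * Real.log 2 ≤ (j l : ℝ) * (f l).r * Real.log 2 := by gcongr
    linarith
  have hS : (0 : ℝ) < SZ j := by
    have := SZ_pos j
    exact_mod_cast this
  rw [← Real.log_le_log_iff hS (by positivity), Real.log_rpow hT0, div_mul_eq_mul_div,
    le_div_iff₀ hμ]
  linarith

end Pool.Agent.H25.DP
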