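import Pool.Agent.H25.DL.Targets3

/-!
# Two dilations: definitions
-/

set_option autoImplicit false

open Complex MeasureTheory Set

namespace Pool.Agent.H25.DP

open Pool.Agent.H25.DL Pool.Agent.H23.GLH

/-- the bump `64 (x (1 - x))^3` on `[0, 1]` -/
noncomputable def om (x : ℝ) : ℝ := 64 * (x * (1 - x)) ^ 3

/-- `n ^ (-i t)` -/
noncomputable def en (n : ℕ) (t : ℝ) : ℂ := cexp ((-(t * Real.log n) : ℝ) * I)

/-- the phase -/
noncomputable def phs (d B η L v : ℝ) : ℝ :=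
  d * v * Real.log v + B * v + η * Real.log v - v * L

variable {ι : Type} [Fintype ι]

/-- the smoothed average of a product of blocks times `Y` -/
noncomputable def AV (f : ι → Fac) (Y : ℂ → ℂ) (j : ι → ℕ) (H W y : ℝ) : ℂ :=
  ∫ u in H..(H + W), (om ((u - H) / W) : ℂ) *
    (Pj f j (1 / 2 + (u + y : ℝ) * I) * Y (1 / 2 + (u + y : ℝ) * I))

/-- the smoothed oscillatory integral -/
noncomputable def IO (d B η H W y L : ℝ) : ℂ :=
  ∫ u in H..(H + W), (om ((u - H) / W) : ℂ) * cexp ((phs d B η L (u + y) : ℝ) * I)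

/-- the size of a product of blocks -/
def SZ (j : ι → ℕ) : ℕ := ∏ l, 2 ^ j l

/-- admissible windows `[H, H + W]` inside `[T, 2T]` of length at least `T^κ` -/
def Win (κ : ℝ) (w : ℝ → ℝ → ℝ → Prop) : Prop :=
  ∀ T H W : ℝ, w T H W → T ≤ H ∧ H + W ≤ 2 * T ∧ T ^ κ ≤ W

/-- all smoothed averages over windows are small -/
def AVH (f : ι → Fac) (Y : ℂ → ℂ) (μ d : ℝ) (w : ℝ → ℝ → ℝ → Prop) : Prop :=
  ∃ D₁ : ℝ, d < D₁ ∧ ∀ D : ℝ, d < D → D < D₁ → ∃ T₀ : ℝ, ∀ T : ℝ, T₀ ≤ T → ∀ H W : ℝ, w T H W →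
    ∀ y : ℝ, |y| ≤ Real.log T → ‖∑ j ∈ mains f μ D T, AV f Y j H W y‖ ≤ W / 100

/-- the fixed windows -/
def WF (T H W : ℝ) : Prop := 16 ≤ T ∧ H = 5 * T / 4 ∧ W = T / 2

/-- the constant in the phase of one factor -/
noncomputable def bC (a : DLF) : ℝ :=
  a.r * (a.L.n * (Real.log (a.r / (2 * Real.pi)) - 1) + Real.log a.L.A)

/-- the constant in the phase of the quotient -/
noncomputable def BC (F : Fam) : ℝ := ∑ i, bC (F.p i) - ∑ j, bC (F.q j)

/-! ### Dirichlet characters -/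

/-- a Dirichlet character as a function on `ℕ` with value `0` at `0` -/
noncomputable def chz (π : PrimChar) (n : ℕ) : ℂ := if n = 0 then 0 else π.χ (n : ZMod π.q)

lemma norm_chz_le (π : PrimChar) (n : ℕ) : ‖chz π n‖ ≤ 1 := by
  have := π.q_ne
  unfold chz
  split_ifs
  · simp
  · exact DirichletCharacter.norm_le_one π.χ _

lemma chz_one (π : PrimChar) : chz π 1 = 1 := by simp [chz]

/-- the two factors of `L(1/2 + a (s - 1/2) + iτ, ψ) / L(s, χ)` -/
noncomputable def fd (ψ χ : PrimChar) (a τ : ℝ) (ha : 0 < a) : Bool → Fac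
  | true => ⟨chz ψ, a, τ, by simp [chz], chz_one ψ, norm_chz_le ψ, ha⟩
  | false => ⟨fun n => ((ArithmeticFunction.moebius n : ℤ) : ℂ) * chz χ n, 1, 0, by simp,
      by simp [chz_one], fun n => by
        rw [norm_mul]
        have h1 := moebius_norm_le n
        have h2 := norm_chz_le χ n
        nlinarith [norm_nonneg ((ArithmeticFunction.moebius n : ℤ) : ℂ), norm_nonneg (chz χ n)],
      one_pos⟩

/-- the stationary point of the term with `m`, `k` -/
noncomputable def VV (a B : ℝ) (m k : ℕ) : ℝ :=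
  ((m : ℝ) ^ a * k * Real.exp (-B - (a - 1))) ^ (1 / (a - 1))

/-- `L(1/2 + a (s - 1/2) + iτ, ψ) / L(s, χ)` as a family -/
noncomputable def prF (P Q : LF) (a τ : ℝ) (ha : 0 < a) : Fam where
  I := Unit
  J := Unit
  fI := inferInstance
  fJ := inferInstance
  p := fun _ => ⟨P, a, τ, ha⟩
  q := fun _ => ⟨Q, 1, 0, one_pos⟩

end Pool.Agent.H25.DP
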