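import Pool.Agent.H25.DP.Targets2
import Pool.Agent.H25.HK.FG

/-!
# Two dilations: definitions for the bilinear method
-/

set_option autoImplicit false

open Complex MeasureTheory Set

namespace Pool.Agent.H25.DP

open Pool.Agent.H25.DL Pool.Agent.H23.GLH

/-- the weight `e^{-zξ} gs β z` -/
noncomputable def gx (β ξ : ℝ) (z : ℂ) : ℂ := cexp (-(z * ξ)) * gs β z

variable {ι : Type} [Fintype ι]

/-- the local average on the line `Re s = 1/2 + β` with the weight `gx` -/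
noncomputable def KR (f : ι → Fac) (Y : ℂ → ℂ) (β ξ R u : ℝ) : ℂ :=
  ∫ y in (-R)..R, Pr f (1 / 2 + β + (u + y : ℝ) * I) * Y (1 / 2 + β + (u + y : ℝ) * I) *
    gx β ξ (β + y * I)

/-- the local average on the line `Re s = 1/2 - β` with the weight `gx` -/
noncomputable def LR (f : ι → Fac) (β ξ R u : ℝ) : ℂ :=
  ∫ y in (-R)..R, Pr (fun l => (f l).bar) (1 / 2 + β - (u + y : ℝ) * I) * gx β ξ (-β + y * I)

/-- one product of blocks on the line `Re s = 1/2` -/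
noncomputable def KX (f : ι → Fac) (Y : ℂ → ℂ) (β ξ R : ℝ) (j : ι → ℕ) (u : ℝ) : ℂ :=
  ∫ y in (-R)..R, Pj f j (1 / 2 + (u + y : ℝ) * I) * Y (1 / 2 + (u + y : ℝ) * I) *
    gx β ξ (y * I)

/-- one conjugate product of blocks on the line `Re s = 1/2` -/
noncomputable def LX (f : ι → Fac) (β ξ R : ℝ) (j : ι → ℕ) (u : ℝ) : ℂ :=
  ∫ y in (-R)..R, (starRingEnd ℂ) (Pj f j (1 / 2 + (u + y : ℝ) * I)) * gx β ξ (y * I)

/-- the test polynomial -/
noncomputable def TP (X : ℕ) (ρ : ℕ → ℂ) (u : ℝ) : ℂ :=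
  ∑ p ∈ Finset.Ico X (2 * X), ρ p * en p u

/-- the smoothed average of a product of blocks times `Y` times the test polynomial -/
noncomputable def AT (f : ι → Fac) (Y : ℂ → ℂ) (j : ι → ℕ) (X : ℕ) (ρ : ℕ → ℂ)
    (H W y : ℝ) : ℂ :=
  ∫ u in H..(H + W), (om ((u - H) / W) : ℂ) *
    (Pj f j (1 / 2 + (u + y : ℝ) * I) * Y (1 / 2 + (u + y : ℝ) * I)) * TP X ρ u

/-- the coefficient at a prime of the factors of dilation `1` -/
noncomputable def bp (f : ι → Fac) (p : ℕ) : ℂ :=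
  ∑ l, if (f l).r = 1 then (f l).c p * (p : ℂ) ^ (-((f l).τ * I) : ℂ) else 0

/-- the coefficients at primes are not too small on some dyadic block in every window -/
def DenF (f : ι → Fac) : Prop :=
  ∀ x₁ x₂ ε : ℝ, 0 < x₁ → x₁ < x₂ → 0 < ε → ∃ T₀ : ℝ, ∀ T : ℝ, T₀ ≤ T → ∃ X : ℕ,
    T ^ x₁ ≤ X ∧ (X : ℝ) ≤ T ^ x₂ ∧
      T ^ (-ε) ≤ ∑ p ∈ (Finset.Ico X (2 * X)).filter Nat.Prime, ‖bp f p‖ ^ 2 / p

/-- the same for an `L`-function -/
def DenL (Q : LF) : Prop :=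
  ∀ x₁ x₂ ε : ℝ, 0 < x₁ → x₁ < x₂ → 0 < ε → ∃ T₀ : ℝ, ∀ T : ℝ, T₀ ≤ T → ∃ X : ℕ,
    T ^ x₁ ≤ X ∧ (X : ℝ) ≤ T ^ x₂ ∧
      T ^ (-ε) ≤ ∑ p ∈ (Finset.Ico X (2 * X)).filter Nat.Prime, ‖∑ i, Q.h i p‖ ^ 2 / p

/-- the stationary point of `phs d B 0 (log lam)` -/
noncomputable def Vv (d B lam : ℝ) : ℝ := (lam * Real.exp (-B - d)) ^ (1 / d)

/-- the coefficient of a tuple -/
noncomputable def co (f : ι → Fac) (z : ι → ℕ) : ℂ :=
  ∏ l, (f l).c (z l) * ((z l : ℕ) : ℂ) ^ (-(1 / 2 + (f l).τ * I) : ℂ)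

/-- the frequency of a tuple -/
noncomputable def lam (f : ι → Fac) (z : ι → ℕ) : ℝ := ∑ l, (f l).r * Real.log (z l)

/-- the tuples in the main blocks -/
noncomputable def TU (f : ι → Fac) (D T : ℝ) : Finset (ι → ℕ) :=
  letI := Classical.decEq ι
  (mains f 1 D T).biUnion fun j => Fintype.piFinset fun l => Finset.Ico (2 ^ j l) (2 ^ (j l + 1))

/-- `Λ` has the data of an `LF` of degree `n` whose coefficients at primes are not too small -/
def GoodD (Λ : ℂ → ℂ) (n : ℕ) : Prop :=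
  ∃ L : LF, L.n = n ∧ DenL L ∧ ∀ z : ℂ, 0 < z.im → analyticOrderAt L.den z ≠ ⊤ ∧
    analyticOrderAt L.num z ≠ ⊤ ∧
      meromorphicOrderAt Λ z + meromorphicOrderAt L.den z = meromorphicOrderAt L.num z

end Pool.Agent.H25.DP
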