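import Pool.Agent.H25.DP.Basic

/-!
# Two dilations: exact targets, part 1 (the general theorem)
-/

set_option autoImplicit false

open Complex MeasureTheory Set

namespace Pool.Agent.H25.DP

open Pool.Agent.H25.DL

/-- (WV) weighted second derivative test. -/
def T_WV : Prop :=
  ∀ (a b lam A A' : ℝ) (φ φ' φ'' : ℝ → ℝ) (w w' : ℝ → ℂ), a ≤ b → 0 < lam →
    (∀ x ∈ Icc a b, HasDerivAt φ (φ' x) x) → (∀ x ∈ Icc a b, HasDerivAt φ' (φ'' x) x) →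
    ContinuousOn φ'' (Icc a b) → (∀ x ∈ Icc a b, lam ≤ φ'' x) →
    (∀ x ∈ Icc a b, HasDerivAt w (w' x) x) → ContinuousOn w' (Icc a b) →
    (∀ x ∈ Icc a b, ‖w x‖ ≤ A) → (∀ x ∈ Icc a b, ‖w' x‖ ≤ A') →
    ‖∫ x in a..b, w x * cexp ((φ x : ℝ) * I)‖ ≤ (A + A' * (b - a)) * (8 / Real.sqrt lam)

/-- (IOA) the oscillatory integral, second derivative bound. -/
def T_IOA : Prop :=
  ∀ d B η : ℝ, 0 < d → ∃ C T₀ : ℝ, 0 < C ∧ ∀ T : ℝ, T₀ ≤ T → ∀ H W y L : ℝ, T ≤ H → 0 < W →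
    H + W ≤ 2 * T → |y| ≤ Real.log T → ‖IO d B η H W y L‖ ≤ C * min W (Real.sqrt T)

/-- (IOB) the oscillatory integral away from the stationary point. -/
def T_IOB : Prop :=
  ∀ d B η : ℝ, 0 < d → ∃ C T₀ : ℝ, 0 < C ∧ ∀ T : ℝ, T₀ ≤ T → ∀ H W y L δ : ℝ, T ≤ H →
    Real.log T ≤ W → H + W ≤ 2 * T → |y| ≤ Real.log T → W / T ≤ δ →
    (∀ u ∈ Icc H (H + W), δ ≤ |d * Real.log (u + y) + d + B - L|) →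
    ‖IO d B η H W y L‖ ≤ C / (W * δ ^ 2)

/-- (IOC) both bounds together. -/
def T_IOC : Prop :=
  ∀ d B η : ℝ, 0 < d → ∃ C T₀ : ℝ, 0 < C ∧ ∀ T : ℝ, T₀ ≤ T → ∀ H W y L : ℝ, T ≤ H →
    Real.log T ≤ W → H + W ≤ 2 * T → |y| ≤ Real.log T →
    ‖IO d B η H W y L‖ ≤ C * min W (Real.sqrt T) *
      (max (1 / W) (W / T) / (max (1 / W) (W / T) + |d * Real.log H + d + B - L|)) ^ 2

/-- (PC) integer points near a curve. -/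
def T_PC : Prop :=
  ∀ (K : ℕ) (c₁ c₂ : ℝ), 0 < c₁ → ∃ C : ℝ, 0 < C ∧ ∀ (M : ℕ) (lam Δ : ℝ) (g g' g'' : ℝ → ℝ),
    1 ≤ M → 0 < lam → 0 ≤ Δ → (∀ x ∈ Icc (M : ℝ) (K * M), HasDerivAt g (g' x) x) →
    (∀ x ∈ Icc (M : ℝ) (K * M), HasDerivAt g' (g'' x) x) →
    (∀ x ∈ Icc (M : ℝ) (K * M), c₁ * lam ≤ g'' x ∧ g'' x ≤ c₂ * lam) →
    ∀ A : Finset ℕ, (∀ m ∈ A, M ≤ m ∧ m < K * M ∧ ∃ k : ℤ, |g m - k| ≤ Δ) →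
      (A.card : ℝ) ≤ C * (M * lam ^ (1 / 3 : ℝ) + M * Δ ^ (1 / 2 : ℝ) +
        (M * Δ / lam) ^ (1 / 2 : ℝ) + (M : ℝ) ^ (1 / 2 : ℝ))

open Classical in
/-- (CT) pairs with `a log n + b log m` close to `L`. -/
def T_CT : Prop :=
  ∀ (a b : ℝ) (K : ℕ), 0 < a → 0 < b → ∃ C : ℝ, 0 < C ∧ ∀ (N M : ℕ) (L δ : ℝ), 1 ≤ N → 1 ≤ M →
    0 < δ → δ ≤ 1 →
    (((Finset.Ico N (K * N) ×ˢ Finset.Ico M (K * M)).filter fun p : ℕ × ℕ =>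
      |a * Real.log p.1 + b * Real.log p.2 - L| ≤ δ).card : ℝ) ≤
      C * (((N : ℝ) * M) ^ (1 / 3 : ℝ) + ((N : ℝ) * M) ^ (3 / 4 : ℝ) * δ ^ (1 / 2 : ℝ) +
        (N : ℝ) * M * δ)

/-- (SB) the sum over all pairs. -/
def T_SB : Prop :=
  ∀ (a b : ℝ) (K : ℕ), 0 < a → 0 < b → ∃ C : ℝ, 0 < C ∧ ∀ (N M : ℕ) (L δ : ℝ), 1 ≤ N → 1 ≤ M →
    0 < δ → δ ≤ 1 →
    ∑ n ∈ Finset.Ico N (K * N), ∑ m ∈ Finset.Ico M (K * M),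
      (δ / (δ + |L - (a * Real.log n + b * Real.log m)|)) ^ 2 ≤
      C * (((N : ℝ) * M) ^ (1 / 3 : ℝ) + ((N : ℝ) * M) ^ (3 / 4 : ℝ) * δ ^ (1 / 2 : ℝ) +
        (N : ℝ) * M * δ)

/-- (PX) a product of blocks of the same dilation is a Dirichlet polynomial. -/
def T_PX : Prop :=
  ∀ (ι : Type) [Fintype ι] (f : ι → Fac) (a ε : ℝ), (∀ l, (f l).r = a) → 0 < ε →
    ∃ C : ℝ, 0 < C ∧ ∀ j : ι → ℕ, ∃ c : ℕ → ℂ,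
      (∀ n, ‖c n‖ ≤ C * (SZ j : ℝ) ^ (ε - 1 / 2)) ∧ ∀ t : ℝ, Pj f j (1 / 2 + t * I) =
        ∑ n ∈ Finset.Ico (SZ j) (2 ^ (Fintype.card ι + 1) * SZ j), c n * en n (a * t)

/-- (MV) mean value theorem for Dirichlet polynomials. -/
def T_MV : Prop :=
  ∀ (a : ℝ) (K : ℕ), 0 < a → ∃ C : ℝ, 0 < C ∧ ∀ (N : ℕ) (A : ℝ) (c : ℕ → ℂ), 1 ≤ N →
    (∀ n, ‖c n‖ ≤ A) → ∀ H W : ℝ, 1 ≤ W →
    ∫ t in H..(H + W), ‖∑ n ∈ Finset.Ico N (K * N), c n * en n (a * t)‖ ^ 2 ≤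
      C * A ^ 2 * N * (W + N)

/-- (MP) moments of a product of blocks of the same dilation. -/
def T_MP : Prop :=
  ∀ (ι : Type) [Fintype ι] (f : ι → Fac) (a ε : ℝ) (q : ℕ), (∀ l, (f l).r = a) → 0 < a → 0 < ε →
    ∃ C : ℝ, 0 < C ∧ ∀ (j : ι → ℕ) (H W : ℝ), 1 ≤ W →
      ∫ t in H..(H + W), ‖Pj f j (1 / 2 + t * I)‖ ^ (2 * q) ≤
        C * (SZ j : ℝ) ^ ε * (W + (SZ j : ℝ) ^ q)

/-- (BD1) the average of the product of blocks over a small set. -/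
def T_BD1 : Prop :=
  ∀ (ι : Type) [Fintype ι] (f : ι → Fac) (a b μ d ε : ℝ), 0 < μ → 0 < a → 0 < b → 0 < d → 0 < ε →
    (∀ l, μ ≤ (f l).r) → (∀ l, (f l).r = a ∨ (f l).r = b) →
    ∃ D₁ c : ℝ, d < D₁ ∧ 0 < c ∧ ∀ D : ℝ, d < D → D < D₁ → ∃ T₀ : ℝ, ∀ T : ℝ, T₀ ≤ T →
      ∀ j ∈ mains f μ D T, ∀ H W : ℝ, Real.log T ≤ W → W ≤ 4 * T →
      ∀ E : Set ℝ, MeasurableSet E → E ⊆ Icc H (H + W) →
      volume.real E ≤ T ^ (-ε) * min W (W ^ 2 * T ^ (-(d / μ))) →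
      ∫ t in E, ‖Pj f j (1 / 2 + t * I)‖ ≤ W * T ^ (-c)

/-- (BD2) the same for the local averages. -/
def T_BD2 : Prop :=
  ∀ (ι : Type) [Fintype ι] (f : ι → Fac) (Y : ℂ → ℂ) (d t₀ a b μ ε : ℝ), Phase Y d t₀ → 0 < μ →
    0 < a → 0 < b → 0 < d → 0 < ε → (∀ l, μ ≤ (f l).r) → (∀ l, (f l).r = a ∨ (f l).r = b) →
    ∃ D₁ c : ℝ, d < D₁ ∧ 0 < c ∧ ∀ β : ℝ, 0 < β → ∀ D : ℝ, d < D → D < D₁ → ∃ T₀ : ℝ,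
      ∀ T : ℝ, T₀ ≤ T → ∀ j ∈ mains f μ D T, ∀ H W : ℝ, T ≤ H → Real.log T ≤ W → H + W ≤ 2 * T →
      ∀ E : Set ℝ, MeasurableSet E → E ⊆ Icc H (H + W) →
      volume.real E ≤ T ^ (-ε) * min W (W ^ 2 * T ^ (-(d / μ))) →
      ∫ u in E, ‖KJ f Y β (Real.log T) j u‖ ≤ W * T ^ (-c)

/-- (RED) from local averages to smoothed averages. -/
def T_RED : Prop :=
  ∀ (ι : Type) [Fintype ι] (f : ι → Fac) (Y : ℂ → ℂ) (d t₀ β : ℝ), 0 < β → Phase Y d t₀ →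
    ∃ T₀ : ℝ, ∀ T : ℝ, T₀ ≤ T → ∀ (J : Finset (ι → ℕ)) (H W M : ℝ), T ≤ H → 0 < W →
      H + W ≤ 2 * T → (∀ y : ℝ, |y| ≤ Real.log T → ‖∑ j ∈ J, AV f Y j H W y‖ ≤ M) →
      ‖∫ u in H..(H + W), (om ((u - H) / W) : ℂ) * ∑ j ∈ J, KJ f Y β (Real.log T) j u‖ ≤ M

/-- (XP) the smoothed average of a product of two Dirichlet polynomials. -/
def T_XP : Prop :=
  ∀ (ι : Type) [Fintype ι] (f : ι → Fac) (Y : ℂ → ℂ) (d B η t₀ C : ℝ) (κ : ℂ),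
    (∀ s : ℂ, t₀ ≤ s.im → DifferentiableAt ℂ Y s) → (∀ t : ℝ, t₀ ≤ t →
      ‖Y (1 / 2 + t * I) - κ * cexp ((d * t * Real.log t + B * t + η * Real.log t : ℝ) * I)‖ ≤
        C / t) →
    ∃ C₁ T₀ : ℝ, 0 < C₁ ∧ ∀ T : ℝ, T₀ ≤ T → ∀ (j : ι → ℕ) (N M K : ℕ) (a b : ℝ) (c c' : ℕ → ℂ),
      1 ≤ N → 1 ≤ M → (∀ t : ℝ, Pj f j (1 / 2 + t * I) =
        (∑ n ∈ Finset.Ico N (K * N), c n * en n (a * t)) *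
          ∑ m ∈ Finset.Ico M (K * M), c' m * en m (b * t)) →
      ∀ H W y : ℝ, T ≤ H → 0 < W → H + W ≤ 2 * T → |y| ≤ Real.log T →
      ‖AV f Y j H W y - κ * ∑ n ∈ Finset.Ico N (K * N), ∑ m ∈ Finset.Ico M (K * M),
          c n * c' m * IO d B η H W y (a * Real.log n + b * Real.log m)‖ ≤
        C₁ * (W / T) * Real.sqrt (SZ j)

/-- (AVB) the smoothed averages are small when `d < μ`. -/
def T_AVB : Prop :=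
  ∀ (ι : Type) [Fintype ι] (f : ι → Fac) (Y : ℂ → ℂ) (d t₀ a b μ κ : ℝ) (w : ℝ → ℝ → ℝ → Prop),
    Phase Y d t₀ → 0 < d → d < μ → μ ≤ a → μ ≤ b → (∀ l, (f l).r = a ∨ (f l).r = b) →
    d / (2 * μ) < κ → κ ≤ 1 → Win κ w → AVH f Y μ d w

/-- (CO4) the core: many bad heights. -/
def T_CO4 : Prop :=
  ∀ (ι : Type) [Fintype ι] (f : ι → Fac) (Y : ℂ → ℂ) (d t₀ a b μ κ ε : ℝ)
    (w : ℝ → ℝ → ℝ → Prop), Phase Y d t₀ → 0 < d → 0 < μ → 0 < a → 0 < b →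
    (∀ l, μ ≤ (f l).r) → (∀ l, (f l).r = a ∨ (f l).r = b) → 0 < κ → Win κ w → AVH f Y μ d w →
    0 < ε → ∃ β₁ : ℝ, 0 < β₁ ∧ ∀ β : ℝ, β₁ ≤ β → ∀ C : ℝ, ∃ T₀ : ℝ, ∀ T : ℝ, T₀ ≤ T →
      ∀ H W : ℝ, w T H W → ∀ G : Set ℝ, MeasurableSet G → G ⊆ Icc H (H + W) →
      (∀ u ∈ G, Clean f Y β C T u) →
      T ^ (-ε) * min W (W ^ 2 * T ^ (-(d / μ))) ≤ volume.real (Icc H (H + W) \ G)

/-- (FI4) many exceptional points. -/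
def T_FI4 : Prop :=
  ∀ (F : Fam) (a b μ κ ε : ℝ) (w : ℝ → ℝ → ℝ → Prop), 0 < F.d → 0 < μ → μ ≤ a → μ ≤ b →
    (∀ i, (F.p i).r = a ∨ (F.p i).r = b) → (∀ j, (F.q j).r = a ∨ (F.q j).r = b) → 0 < κ →
    Win κ w → AVH F.f F.Y μ F.d w → 0 < ε → ∃ T₀ : ℝ, ∀ T : ℝ, T₀ ≤ T → ∀ H W : ℝ, w T H W →
    ∃ Z : Finset ℂ, T ^ (-ε) * min W (W ^ 2 * T ^ (-(F.d / μ))) ≤ Z.card ∧
      ∀ z ∈ Z, H - 2 * Real.log T ≤ z.im ∧ z.im ≤ H + W + 2 * Real.log T ∧ F.Exc z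

/-- (FIP) the general theorem for two dilations. -/
def T_FIP : Prop :=
  ∀ (F : Fam) (a b μ κ ε : ℝ), 0 < F.d → F.d < μ → μ ≤ a → μ ≤ b →
    (∀ i, (F.p i).r = a ∨ (F.p i).r = b) → (∀ j, (F.q j).r = a ∨ (F.q j).r = b) →
    F.d / (2 * μ) < κ → κ ≤ 1 → 0 < ε → ∃ T₀ : ℝ, ∀ T W : ℝ, T₀ ≤ T → T ^ κ ≤ W → W ≤ T →
    ∃ Z : Finset ℂ, T ^ (-ε) * min W (W ^ 2 * T ^ (-(F.d / μ))) ≤ Z.card ∧
      ∀ z ∈ Z, T ≤ z.im ∧ z.im ≤ T + W ∧ F.Exc z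

end Pool.Agent.H25.DP
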