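import Pool.Agent.H25.DP.Targets

/-!
# Two dilations: exact targets, part 2 (Dirichlet characters beyond degree one)
-/

set_option autoImplicit false

open Complex MeasureTheory Set Filter Topology

namespace Pool.Agent.H25.DP

open Pool.Agent.H25.DL Pool.Agent.H23.GLH

/-! ### The functional equation -/

/-- (PHB) the phase of the quotient with explicit constant. -/
def T_PHB : Prop :=
  ∀ F : Fam, ∃ (t₀ η C : ℝ) (κ : ℂ), Phase F.Y F.d t₀ ∧ ‖κ‖ = 1 ∧ ∀ t : ℝ, t₀ ≤ t →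
    ‖F.Y (1 / 2 + t * I) -
      κ * cexp ((F.d * t * Real.log t + BC F * t + η * Real.log t : ℝ) * I)‖ ≤ C / t

/-- (DI2) primitive Dirichlet characters with conductor and coefficients. -/
def T_DI2 : Prop :=
  ∀ π : PrimChar, ∃ L : LF, L.n = 1 ∧ L.num = π.L ∧ L.den = (fun _ => 1) ∧ L.A = π.q ∧
    ∀ (i : Fin L.n) (m : ℕ), L.h i m = chz π m

/-! ### The oscillatory integral as a function of the stationary point -/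

/-- (EE) the function `(e^t - 1) / t`. -/
def T_EE : Prop :=
  ∃ E E' E'' : ℝ → ℝ, (∀ t, HasDerivAt E (E' t) t) ∧ (∀ t, HasDerivAt E' (E'' t) t) ∧
    Continuous E'' ∧ (∀ t, t * E t = Real.exp t - 1) ∧
    ∀ R t : ℝ, |t| ≤ R → |E t| ≤ Real.exp R ∧ |E' t| ≤ Real.exp R ∧ |E'' t| ≤ Real.exp R

/-- (JL) Lipschitz bound for the oscillatory integral without its main phase. -/
def T_JL : Prop :=
  ∀ d B η : ℝ, 0 < d → ∃ C T₀ : ℝ, 0 < C ∧ ∀ T : ℝ, T₀ ≤ T → ∀ H W y V₁ V₂ : ℝ, T ≤ H →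
    T / 4 ≤ W → H + W ≤ 2 * T → |y| ≤ Real.log T → T / 8 ≤ V₁ → V₁ ≤ 16 * T → T / 8 ≤ V₂ →
    V₂ ≤ 16 * T →
    ‖cexp ((d * V₁ : ℝ) * I) * IO d B η H W y (d * Real.log V₁ + d + B) -
      cexp ((d * V₂ : ℝ) * I) * IO d B η H W y (d * Real.log V₂ + d + B)‖ ≤
      C * |V₁ - V₂| / Real.sqrt T

/-- (PS) the sum over `k`. -/
def T_PS : Prop :=
  ∀ a B η : ℝ, 2 ≤ a → ∃ C T₀ : ℝ, 0 < C ∧ ∀ T : ℝ, T₀ ≤ T → ∀ H W y : ℝ, T ≤ H →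
    T / 4 ≤ W → H + W ≤ 2 * T → |y| ≤ Real.log T → ∀ (g : ℕ → ℂ) (m K : ℕ), 1 ≤ m → 1 ≤ K →
    (∀ k, ‖g k‖ ≤ 1) →
    ((∃ k ∈ Finset.Ico K (2 * K), VV a B m k < T / 8 ∨ 16 * T < VV a B m k) →
      ‖∑ k ∈ Finset.Ico K (2 * K), g k * (k : ℂ) ^ (-(1 / 2) : ℂ) *
        IO (a - 1) B η H W y (a * Real.log m + Real.log k)‖ ≤ C * Real.sqrt K / T) ∧
    ∀ A : ℝ, (∀ k ∈ Finset.Ico K (2 * K), T / 8 ≤ VV a B m k ∧ VV a B m k ≤ 16 * T) →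
      (∀ x : ℕ, K ≤ x → x ≤ 2 * K → ‖∑ k ∈ Finset.Ico K x,
        g k * cexp ((-((a - 1) * VV a B m k) : ℝ) * I)‖ ≤ A) →
      ‖∑ k ∈ Finset.Ico K (2 * K), g k * (k : ℂ) ^ (-(1 / 2) : ℂ) *
        IO (a - 1) B η H W y (a * Real.log m + Real.log k)‖ ≤ C * Real.sqrt T / Real.sqrt K * A

open Classical in
/-- (BK) the smoothed average of one pair of blocks. -/
def T_BK : Prop :=
  ∀ (ψ χ : PrimChar) (a τ : ℝ) (ha : 0 < a) (Y : ℂ → ℂ) (B η t₀ C : ℝ) (κ : ℂ), 2 ≤ a → a ≤ 3 →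
    (∀ s : ℂ, t₀ ≤ s.im → DifferentiableAt ℂ Y s) → ‖κ‖ = 1 → (∀ t : ℝ, t₀ ≤ t →
      ‖Y (1 / 2 + t * I) - κ * cexp (((a - 1) * t * Real.log t + B * t + η * Real.log t : ℝ) * I)‖ ≤
        C / t) →
    ∃ C₁ T₀ : ℝ, 0 < C₁ ∧ ∀ T : ℝ, T₀ ≤ T → ∀ (j : Bool → ℕ) (y : ℝ) (A : ℕ → ℝ),
      |y| ≤ Real.log T →
      (∀ m ∈ Finset.Ico (2 ^ j true) (2 ^ (j true + 1)),
        (∀ k ∈ Finset.Ico (2 ^ j false) (2 ^ (j false + 1)),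
          T / 8 ≤ VV a B m k ∧ VV a B m k ≤ 16 * T) →
        ∀ x : ℕ, 2 ^ j false ≤ x → x ≤ 2 ^ (j false + 1) →
          ‖∑ k ∈ Finset.Ico (2 ^ j false) x, ((ArithmeticFunction.moebius k : ℤ) : ℂ) * chz χ k *
            cexp ((-((a - 1) * VV a B m k) : ℝ) * I)‖ ≤ A m) →
      ‖AV (fd ψ χ a τ ha) Y j (5 * T / 4) (T / 2) y‖ ≤ C₁ * (Real.sqrt (SZ j) +
        ∑ m ∈ (Finset.Ico (2 ^ j true) (2 ^ (j true + 1))).filter (fun m =>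
          ∀ k ∈ Finset.Ico (2 ^ j false) (2 ^ (j false + 1)),
            T / 8 ≤ VV a B m k ∧ VV a B m k ≤ 16 * T),
          Real.sqrt T / Real.sqrt m / Real.sqrt (2 ^ j false) * A m)

/-! ### The Möbius function in residue classes -/

/-- (TA1) the identity behind the Tauberian theorem, with the Fejér kernel. -/
def T_TA1 : Prop :=
  ∀ (a : ℕ → ℂ) (G : ℂ → ℂ), (∀ n, ‖a n‖ ≤ 1) → a 0 = 0 → ContinuousOn G {s : ℂ | 1 ≤ s.re} →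
    (∀ s : ℂ, 1 < s.re → G s = LSeries a s) → ∀ lam : ℝ, 0 < lam →
    Tendsto (fun v : ℝ => ∫ u in Ioi (0 : ℝ), (∑ n ∈ Finset.Icc 1 ⌊Real.exp u⌋₊, a n) *
      (Real.exp (-u) * (lam * (Real.sinc (lam * (v - u) / 2)) ^ 2) : ℝ)) atTop (𝓝 0)

/-- (TA2) the Tauberian theorem. -/
def T_TA2 : Prop :=
  ∀ (a : ℕ → ℂ) (G : ℂ → ℂ), (∀ n, ‖a n‖ ≤ 1) → a 0 = 0 → ContinuousOn G {s : ℂ | 1 ≤ s.re} →
    (∀ s : ℂ, 1 < s.re → G s = LSeries a s) →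
    Tendsto (fun N : ℕ => (∑ n ∈ Finset.range N, a n) / (N : ℂ)) atTop (𝓝 0)

/-- (MUX) the Möbius function times a Dirichlet character. -/
def T_MUX : Prop :=
  ∀ (q : ℕ) [NeZero q] (χ : DirichletCharacter ℂ q),
    Tendsto (fun N : ℕ => (∑ n ∈ Finset.range N, ((ArithmeticFunction.moebius n : ℤ) : ℂ) *
      χ (n : ZMod q)) / (N : ℂ)) atTop (𝓝 0)

/-- (PER) the Möbius function times a periodic function. -/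
def T_PER : Prop :=
  ∀ (q : ℕ) (g : ℕ → ℂ), 1 ≤ q → (∀ n, g (n + q) = g n) →
    Tendsto (fun N : ℕ => (∑ n ∈ Finset.range N, ((ArithmeticFunction.moebius n : ℤ) : ℂ) *
      g n) / (N : ℂ)) atTop (𝓝 0)

/-! ### Exponential sums with the Möbius function -/

/-- (V3) van der Corput's third derivative test. -/
def T_V3 : Prop :=
  ∀ α : ℝ, 1 ≤ α → ∃ C : ℝ, 0 < C ∧ ∀ (M A B : ℕ) (f f' f'' f''' : ℝ → ℝ) (lam : ℝ), 1 ≤ M →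
    M ≤ A → A ≤ B → B ≤ 2 * M → 0 < lam →
    (∀ x ∈ Icc (M : ℝ) (2 * M), HasDerivAt f (f' x) x) →
    (∀ x ∈ Icc (M : ℝ) (2 * M), HasDerivAt f' (f'' x) x) →
    (∀ x ∈ Icc (M : ℝ) (2 * M), HasDerivAt f'' (f''' x) x) →
    (∀ x ∈ Icc (M : ℝ) (2 * M), lam ≤ f''' x ∧ f''' x ≤ α * lam) →
    ‖∑ n ∈ Finset.Ico A B, cexp ((2 * Real.pi * f n : ℝ) * I)‖ ≤
      C * (M * lam ^ (1 / 6 : ℝ) + (M : ℝ) ^ (1 / 2 : ℝ) * lam ^ (-(1 / 6) : ℝ))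

/-- (T1) sums without multiplicative structure. -/
def T_T1 : Prop :=
  ∀ (q : ℕ) (θ : ℝ), 1 ≤ q → 0 < θ → θ < 1 → ∃ C : ℝ, 0 < C ∧ ∀ (g : ℕ → ℂ) (K₁ K₂ : ℕ) (γ : ℝ),
    (∀ n, g (n + q) = g n) → (∀ n, ‖g n‖ ≤ 1) → 1 ≤ K₁ → K₁ ≤ K₂ → K₂ ≤ 2 * K₁ → 0 < γ →
    ‖∑ m ∈ Finset.Ico K₁ K₂, g m * cexp ((-(γ * (m : ℝ) ^ θ) : ℝ) * I)‖ ≤
      C * (Real.sqrt (γ * (K₁ : ℝ) ^ θ) + K₁ / Real.sqrt (γ * (K₁ : ℝ) ^ θ))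

/-- (T2) bilinear sums. -/
def T_T2 : Prop :=
  ∀ θ : ℝ, 0 < θ → θ < 1 → ∃ C : ℝ, 0 < C ∧ ∀ (M N K₁ K₂ : ℕ) (α β : ℕ → ℂ) (A γ : ℝ), 1 ≤ M →
    1 ≤ N → (∀ m, ‖α m‖ ≤ A) → (∀ n, ‖β n‖ ≤ A) → 0 < γ →
    ‖∑ m ∈ Finset.Ico M (2 * M), ∑ n ∈ Finset.Ico N (2 * N),
      (if K₁ ≤ m * n ∧ m * n < K₂ then α m * β n * cexp ((-(γ * ((m * n : ℕ) : ℝ) ^ θ) : ℝ) * I)
        else 0)‖ ≤
      C * A ^ 2 * (M * (N : ℝ) ^ (1 / 2 : ℝ) +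
        (M : ℝ) ^ (3 / 4 : ℝ) * N * (γ * ((M : ℝ) * N) ^ θ) ^ (1 / 12 : ℝ) +
        M * N * (γ * ((M : ℝ) * N) ^ θ) ^ (-(1 / 12) : ℝ))

open Classical in
/-- (VA) Vaughan's identity for the Möbius function. -/
def T_VA : Prop :=
  ∀ (U k : ℕ), 1 ≤ U → U < k → (ArithmeticFunction.moebius k : ℤ) =
    -(∑ r ∈ k.divisors.filter (fun r => r ≤ U * U),
        ∑ p ∈ r.divisorsAntidiagonal.filter (fun p => p.1 ≤ U ∧ p.2 ≤ U),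
          ArithmeticFunction.moebius p.1 * ArithmeticFunction.moebius p.2) -
    ∑ p ∈ k.divisorsAntidiagonal.filter (fun p => U < p.1 ∧ U < p.2),
      ArithmeticFunction.moebius p.1 *
        ∑ d ∈ p.2.divisors.filter (fun d => d ≤ U), ArithmeticFunction.moebius d

/-- (ES) the exponential sum with the Möbius function. -/
def T_ES : Prop :=
  ∀ (χ : PrimChar) (θ ε : ℝ), 0 < θ → θ < 1 → 0 < ε → ∃ C : ℝ, 0 < C ∧ ∀ (K x : ℕ) (γ : ℝ),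
    1 ≤ K → K ≤ x → x ≤ 2 * K → 0 < γ → 1 ≤ γ * (K : ℝ) ^ θ →
    ‖∑ k ∈ Finset.Ico K x, ((ArithmeticFunction.moebius k : ℤ) : ℂ) * chz χ k *
      cexp ((-(γ * (k : ℝ) ^ θ) : ℝ) * I)‖ ≤
      C * (K : ℝ) ^ ε * ((K : ℝ) ^ (9 / 10 : ℝ) +
        (K : ℝ) ^ (7 / 8 : ℝ) * (γ * (K : ℝ) ^ θ) ^ (1 / 12 : ℝ) +
        K * (γ * (K : ℝ) ^ θ) ^ (-(1 / 12) : ℝ) +
        (K : ℝ) ^ (2 / 5 : ℝ) * (γ * (K : ℝ) ^ θ) ^ (1 / 2 : ℝ) +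
        K * (γ * (K : ℝ) ^ θ) ^ (-(1 / 2) : ℝ))

/-! ### Assembly -/

/-- (AV2) the case `a = 2`. -/
def T_AV2 : Prop :=
  ∀ (ψ χ : PrimChar) (τ : ℝ) (Y : ℂ → ℂ) (B η t₀ C : ℝ) (κ : ℂ),
    (∀ s : ℂ, t₀ ≤ s.im → DifferentiableAt ℂ Y s) → ‖κ‖ = 1 → (∀ t : ℝ, t₀ ≤ t →
      ‖Y (1 / 2 + t * I) -
        κ * cexp (((2 - 1) * t * Real.log t + B * t + η * Real.log t : ℝ) * I)‖ ≤ C / t) →
    Real.exp (-B - (2 - 1)) = Real.pi * χ.q / (2 * ψ.q ^ 2) →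
    AVH (fd ψ χ 2 τ two_pos) Y 1 (2 - 1) WF

/-- (AV3) the case `2 < a < 19 / 9`. -/
def T_AV3 : Prop :=
  ∀ (ψ χ : PrimChar) (a τ : ℝ) (ha : 0 < a) (Y : ℂ → ℂ) (B η t₀ C : ℝ) (κ : ℂ), 2 < a →
    a < 19 / 9 → (∀ s : ℂ, t₀ ≤ s.im → DifferentiableAt ℂ Y s) → ‖κ‖ = 1 → (∀ t : ℝ, t₀ ≤ t →
      ‖Y (1 / 2 + t * I) - κ * cexp (((a - 1) * t * Real.log t + B * t + η * Real.log t : ℝ) * I)‖ ≤
        C / t) →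
    AVH (fd ψ χ a τ ha) Y 1 (a - 1) WF

/-- (TRF) reindexing. -/
def T_TRF : Prop :=
  ∀ (ι ι' : Type) [Fintype ι] [Fintype ι'] (e : ι ≃ ι') (f : ι → Fac) (f' : ι' → Fac)
    (Y : ℂ → ℂ) (μ d : ℝ) (w : ℝ → ℝ → ℝ → Prop), (∀ l, f' (e l) = f l) → AVH f Y μ d w →
    AVH f' Y μ d w

/-- (D2) the theorem for Dirichlet `L`-functions. -/
def T_D2 : Prop :=
  ∀ (ψ χ : PrimChar) (a τ ε : ℝ), 2 ≤ a → a < 19 / 9 → 0 < ε → ∃ T₀ : ℝ, ∀ T : ℝ, T₀ ≤ T →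
    ∃ Z : Finset ℂ, T ^ (3 - a - ε) ≤ Z.card ∧ ∀ z ∈ Z, T ≤ z.im ∧ z.im ≤ 2 * T ∧
      analyticOrderAt ψ.L (wl a τ z) < analyticOrderAt χ.L z

end Pool.Agent.H25.DP
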