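import Pool.Agent.H25.DP.Defs3
import Pool.Agent.H25.HK.Targets

/-!
# Two dilations: exact targets, part 3 (the bilinear method, beyond degree one)
-/

set_option autoImplicit false

open Complex MeasureTheory Set Filter Topology

namespace Pool.Agent.H25.DP

open Pool.Agent.H25.DL Pool.Agent.H23.GLH

/-! ### The identity at clean heights -/

/-- (EXX) the right side as a sum over the main blocks. -/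
def T_EXX : Prop :=
  ∀ (ι : Type) [Fintype ι] (f : ι → Fac) (Y : ℂ → ℂ) (d t₀ x₁ D : ℝ), Phase Y d t₀ → 0 < x₁ →
    x₁ < d → d - x₁ < D → (∀ l, 1 ≤ (f l).r) → ∃ β₁ : ℝ, 0 < β₁ ∧ ∀ β : ℝ, β₁ ≤ β →
    ∃ T₀ : ℝ, ∀ T : ℝ, T₀ ≤ T → ∀ u ∈ Icc T (2 * T), ∀ ξ : ℝ, x₁ * Real.log T ≤ ξ →
      ‖KR f Y β ξ (Real.log T) u - ∑ j ∈ mains f 1 D T, KX f Y β ξ (Real.log T) j u‖ ≤
        T ^ (-(1 / 2) : ℝ)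

/-- (SHX) the contour shift at a clean height. -/
def T_SHX : Prop :=
  ∀ (ι : Type) [Fintype ι] (f : ι → Fac) (Y : ℂ → ℂ) (β C x₂ : ℝ), 0 < β → 0 ≤ x₂ →
    ∃ T₀ : ℝ, ∀ T : ℝ, T₀ ≤ T → ∀ u ∈ Icc T (2 * T), Clean f Y β C T u → ∀ ξ : ℝ, 0 ≤ ξ →
      ξ ≤ x₂ * Real.log T →
      ‖KR f Y β ξ (Real.log T) u - LR f β ξ (Real.log T) u‖ ≤ T ^ (-(1 / 2) : ℝ)

/-- (LLX) the left side as a sum over short blocks. -/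
def T_LLX : Prop :=
  ∀ (ι : Type) [Fintype ι] (f : ι → Fac) (x₂ D : ℝ), 0 < x₂ → x₂ < D → (∀ l, 1 ≤ (f l).r) →
    ∃ β₁ : ℝ, 0 < β₁ ∧ ∀ β : ℝ, β₁ ≤ β → ∃ T₀ : ℝ, ∀ T : ℝ, T₀ ≤ T → ∀ u ξ : ℝ, 0 ≤ ξ →
      ξ ≤ x₂ * Real.log T →
      ‖LR f β ξ (Real.log T) u - ∑ j ∈ mains f 1 D T, LX f β ξ (Real.log T) j u‖ ≤
        T ^ (-(1 / 2) : ℝ)

/-! ### The bilinear form -/

/-- (XPR) expansion of `AT`. -/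
def T_XPR : Prop :=
  ∀ (ι : Type) [Fintype ι] (f : ι → Fac) (Y : ℂ → ℂ) (d B η t₀ C : ℝ) (κ : ℂ),
    (∀ s : ℂ, t₀ ≤ s.im → DifferentiableAt ℂ Y s) → (∀ t : ℝ, t₀ ≤ t →
      ‖Y (1 / 2 + t * I) - κ * cexp ((d * t * Real.log t + B * t + η * Real.log t : ℝ) * I)‖ ≤
        C / t) →
    ∃ C₁ T₀ : ℝ, 0 < C₁ ∧ ∀ T : ℝ, T₀ ≤ T → ∀ (j : ι → ℕ) (N M K : ℕ) (a b : ℝ) (c c' : ℕ → ℂ)
      (X : ℕ) (ρ : ℕ → ℂ), 1 ≤ N → 1 ≤ M → (∀ p, ‖ρ p‖ ≤ (X : ℝ) ^ (-(1 / 2) : ℝ)) →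
      (∀ t : ℝ, Pj f j (1 / 2 + t * I) =
        (∑ n ∈ Finset.Ico N (K * N), c n * en n (a * t)) *
          ∑ m ∈ Finset.Ico M (K * M), c' m * en m (b * t)) →
      ∀ H W y : ℝ, T ≤ H → 0 < W → H + W ≤ 2 * T → |y| ≤ Real.log T →
      ‖AT f Y j X ρ H W y - κ * ∑ n ∈ Finset.Ico N (K * N), ∑ m ∈ Finset.Ico M (K * M),
          ∑ p ∈ Finset.Ico X (2 * X), c n * c' m * (ρ p * en p (-y)) *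
            IO d B η H W y (a * Real.log n + b * Real.log m + Real.log p)‖ ≤
        C₁ * (W / T) * Real.sqrt (SZ j) * Real.sqrt X

/-- (KSU) the sum over `k` for two primes. -/
def T_KSU : Prop :=
  ∀ d B η : ℝ, 1 < d → d ≤ 2 → ∃ C T₀ : ℝ, 0 < C ∧ ∀ T : ℝ, T₀ ≤ T → ∀ H W y : ℝ, T ≤ H →
    T / 4 ≤ W → H + W ≤ 2 * T → |y| ≤ Real.log T → ∀ (ν : ℝ) (K X p p' : ℕ), 0 < ν → 1 ≤ K →
    p ∈ Finset.Ico X (2 * X) → p' ∈ Finset.Ico X (2 * X) → p ≠ p' →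
    ‖∑ k ∈ Finset.Ico K (2 * K),
      if (T / 4 ≤ Vv d B (ν * k * p) ∧ Vv d B (ν * k * p) ≤ 8 * T) ∧
          (T / 4 ≤ Vv d B (ν * k * p') ∧ Vv d B (ν * k * p') ≤ 8 * T) then
        IO d B η H W y (Real.log (ν * k * p)) *
          (starRingEnd ℂ) (IO d B η H W y (Real.log (ν * k * p')))
      else 0‖ ≤
    C * T * min (Real.sqrt (T * |(p : ℝ) - p'| / X) + K / Real.sqrt (T * |(p : ℝ) - p'| / X))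
      (Real.sqrt K * (T * |(p : ℝ) - p'| / X) ^ (1 / 6 : ℝ) +
        K * (T * |(p : ℝ) - p'| / X) ^ (-(1 / 6) : ℝ))

/-- (BLK) the bilinear form over one dyadic range of `k`. -/
def T_BLK : Prop :=
  ∀ d B η r : ℝ, 1 < d → d ≤ 2 → 2 ≤ r → ∃ C T₀ : ℝ, 0 < C ∧ ∀ T : ℝ, T₀ ≤ T → ∀ H W y : ℝ,
    T ≤ H → T / 4 ≤ W → H + W ≤ 2 * T → |y| ≤ Real.log T → ∀ (M J K X : ℕ)
    (α β γ : ℕ → ℂ) (A : ℝ), 1 ≤ M → 1 ≤ K → 1 ≤ X → (∀ n, ‖α n‖ ≤ 1) → (∀ n, ‖β n‖ ≤ 1) →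
    (∀ n, ‖γ n‖ ≤ 1) → 0 ≤ A →
    (A = Real.sqrt T + K / Real.sqrt T ∨
      A = Real.sqrt K * T ^ (1 / 6 : ℝ) + K * T ^ (-(1 / 6) : ℝ)) →
    ‖∑ n ∈ Finset.Ico M (J * M), ∑ k ∈ Finset.Ico K (2 * K), ∑ p ∈ Finset.Ico X (2 * X),
      α n * β k * γ p * IO d B η H W y (r * Real.log n + Real.log k + Real.log p)‖ ≤
    C * (J : ℝ) * ((M : ℝ) * K * X / T + M * (K : ℝ) * Real.sqrt (X * T) +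
      M * X * Real.sqrt (K * T * A))

/-- (BIL) the bilinear estimate. -/
def T_BIL : Prop :=
  ∀ (ι : Type) [Fintype ι] (f : ι → Fac) (Y : ℂ → ℂ) (d t₀ r : ℝ), Phase Y d t₀ → 1 < d →
    d < 4 / 3 → 2 ≤ r → (∀ l, (f l).r = r ∨ (f l).r = 1) → ∃ η₀ : ℝ, 0 < η₀ ∧ ∀ η : ℝ, 0 < η →
    η ≤ η₀ → ∃ c T₀ : ℝ, 0 < c ∧ ∀ T : ℝ, T₀ ≤ T → ∀ j ∈ mains f 1 (1 - η / 4) T,
      ∀ (X : ℕ) (ρ : ℕ → ℂ) (y : ℝ), (X : ℝ) ≤ T ^ (d - 1 + η) →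
      (∀ p, ‖ρ p‖ ≤ (X : ℝ) ^ (-(1 / 2) : ℝ)) → |y| ≤ Real.log T →
      ‖AT f Y j X ρ (5 * T / 4) (T / 2) y‖ ≤ T ^ (1 - c)

/-! ### Bad heights -/

/-- (BEX) the average over a small set. -/
def T_BEX : Prop :=
  ∀ (ι : Type) [Fintype ι] (f : ι → Fac) (r D x₂ ε : ℝ), 2 ≤ r →
    (∀ l, (f l).r = r ∨ (f l).r = 1) → 0 < D → D < 1 → 0 < x₂ → x₂ < 1 / 2 → 0 < ε →
    ∃ c T₀ : ℝ, 0 < c ∧ ∀ T : ℝ, T₀ ≤ T → ∀ j ∈ mains f 1 D T, ∀ (X : ℕ) (ρ : ℕ → ℂ) (y : ℝ),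
      (X : ℝ) ≤ T ^ x₂ → (∀ p, ‖ρ p‖ ≤ (X : ℝ) ^ (-(1 / 2) : ℝ)) → |y| ≤ Real.log T →
      ∀ E : Set ℝ, MeasurableSet E → E ⊆ Icc T (2 * T) → volume.real E ≤ T ^ (1 - ε) →
      ∫ u in E, ‖Pj f j (1 / 2 + (u + y : ℝ) * I)‖ * ‖TP X ρ u‖ ≤ T ^ (1 - c)

/-- (BX2) the same for the local averages. -/
def T_BX2 : Prop :=
  ∀ (ι : Type) [Fintype ι] (f : ι → Fac) (Y : ℂ → ℂ) (d t₀ r D x₂ ε : ℝ), Phase Y d t₀ →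
    2 ≤ r → (∀ l, (f l).r = r ∨ (f l).r = 1) → 0 < D → D < 1 → 0 < x₂ → x₂ < 1 / 2 → 0 < ε →
    ∃ c : ℝ, 0 < c ∧ ∀ β : ℝ, 0 < β → ∃ T₀ : ℝ, ∀ T : ℝ, T₀ ≤ T → ∀ j ∈ mains f 1 D T,
      ∀ (X : ℕ) (ρ : ℕ → ℂ) (ξ : ℝ), (X : ℝ) ≤ T ^ x₂ →
      (∀ p, ‖ρ p‖ ≤ (X : ℝ) ^ (-(1 / 2) : ℝ)) →
      ∀ E : Set ℝ, MeasurableSet E → E ⊆ Icc T (2 * T) → volume.real E ≤ T ^ (1 - ε) →
      (∫ u in E, ‖KX f Y β ξ (Real.log T) j u‖ * ‖TP X ρ u‖ ≤ T ^ (1 - c)) ∧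
      ∫ u in E, ‖LX f β ξ (Real.log T) j u‖ * ‖TP X ρ u‖ ≤ T ^ (1 - c)

/-- (RDX) from local averages to smoothed averages. -/
def T_RDX : Prop :=
  ∀ (ι : Type) [Fintype ι] (f : ι → Fac) (Y : ℂ → ℂ) (d t₀ β : ℝ), 0 < β → Phase Y d t₀ →
    ∃ T₀ : ℝ, ∀ T : ℝ, T₀ ≤ T → ∀ (j : ι → ℕ) (X : ℕ) (ρ : ℕ → ℂ) (ξ H W M : ℝ), T ≤ H →
      0 < W → H + W ≤ 2 * T → (∀ y : ℝ, |y| ≤ Real.log T → ‖AT f Y j X ρ H W y‖ ≤ M) →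
      ‖∫ u in H..(H + W), (om ((u - H) / W) : ℂ) * KX f Y β ξ (Real.log T) j u * TP X ρ u‖ ≤ M

/-! ### The lower bound -/

/-- (GX) the Gaussian weight. -/
def T_GX : Prop :=
  ∀ β : ℝ, 0 < β → ∃ T₀ : ℝ, ∀ T : ℝ, T₀ ≤ T → ∀ Δ : ℝ,
    ‖(∫ y in (-Real.log T)..(Real.log T), cexp ((Δ * y : ℝ) * I) * gs β (y * I)) -
      (Real.exp (-(β ^ 2 * Δ ^ 2 / 4)) : ℂ)‖ ≤ T ^ (-10 : ℝ)

/-- (IM) the Fourier transform of the bump. -/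
def T_IM : Prop :=
  ∃ C : ℝ, 0 < C ∧ ∀ H W Δ : ℝ, 0 < W →
    ‖∫ u in H..(H + W), (om ((u - H) / W) : ℂ) * cexp ((Δ * u : ℝ) * I)‖ ≤ C * W ∧
    (Δ ≠ 0 →
      ‖∫ u in H..(H + W), (om ((u - H) / W) : ℂ) * cexp ((Δ * u : ℝ) * I)‖ ≤ C / (W * Δ ^ 2))

open Classical in
/-- (NC) near coincidences with a prime. -/
def T_NC : Prop :=
  ∀ (r δ : ℝ) (N X Y : ℕ), 2 ≤ r → 2 ≤ N → 0 < δ → δ ≤ 1 / 10 →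
    (((Finset.Ico 1 Y ×ˢ (Finset.Ico X (2 * X)).filter Nat.Prime).filter fun q : ℕ × ℕ =>
      |r * Real.log N + Real.log q.1 - Real.log q.2| ≤ δ).card : ℝ) ≤ 1 + 100 * δ * (X : ℝ) ^ 2

/-- (DLE) expansion of the left side. -/
def T_DLE : Prop :=
  ∀ (ι : Type) [Fintype ι] (f : ι → Fac) (D β : ℝ), (∀ l, 1 ≤ (f l).r) → 0 < D → D < 1 → 0 < β →
    ∃ T₀ : ℝ, ∀ T : ℝ, T₀ ≤ T → ∀ u ξ : ℝ,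
      ‖(∑ j ∈ mains f 1 D T, LX f β ξ (Real.log T) j u) - ∑ z ∈ TU f D T,
        (starRingEnd ℂ) (co f z) * cexp ((u * lam f z : ℝ) * I) *
          (Real.exp (-(β ^ 2 * (lam f z - ξ) ^ 2 / 4)) : ℂ)‖ ≤ T ^ (-5 : ℝ)

/-- (DLB) the lower bound. -/
def T_DLB : Prop :=
  ∀ (ι : Type) [Fintype ι] (f : ι → Fac) (r x₁ x₂ D β ε : ℝ), 2 ≤ r →
    (∀ l, (f l).r = r ∨ (f l).r = 1) → DenF f → 0 < x₁ → x₁ < x₂ → x₂ < D → D < 1 / 2 → 0 < β →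
    0 < ε → ∃ T₀ : ℝ, ∀ T : ℝ, T₀ ≤ T → ∃ (X : ℕ) (ρ : ℕ → ℂ), T ^ x₁ ≤ X ∧ (X : ℝ) ≤ T ^ x₂ ∧
      (∀ p, ‖ρ p‖ ≤ (X : ℝ) ^ (-(1 / 2) : ℝ)) ∧
      T ^ (1 - ε) ≤ ‖∫ u in (5 * T / 4)..(5 * T / 4 + T / 2),
        (om ((u - 5 * T / 4) / (T / 2)) : ℂ) *
          (∑ j ∈ mains f 1 D T, LX f β (Real.log X) (Real.log T) j u) * TP X ρ u‖

/-! ### Assembly -/

/-- (CO5) the core: many bad heights. -/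
def T_CO5 : Prop :=
  ∀ (ι : Type) [Fintype ι] (f : ι → Fac) (Y : ℂ → ℂ) (d t₀ r ε : ℝ), Phase Y d t₀ → 1 < d →
    d < 4 / 3 → 2 ≤ r → (∀ l, (f l).r = r ∨ (f l).r = 1) → DenF f → 0 < ε →
    ∃ β₁ : ℝ, 0 < β₁ ∧ ∀ β : ℝ, β₁ ≤ β → ∀ C : ℝ, ∃ T₀ : ℝ, ∀ T : ℝ, T₀ ≤ T →
      ∀ G : Set ℝ, MeasurableSet G → G ⊆ Icc (5 * T / 4) (7 * T / 4) →
      (∀ u ∈ G, Clean f Y β C T u) →
      T ^ (1 - ε) ≤ volume.real (Icc (5 * T / 4) (7 * T / 4) \ G)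

/-- (FI5) many exceptional points. -/
def T_FI5 : Prop :=
  ∀ (F : Fam) (r ε : ℝ), 1 < F.d → F.d < 4 / 3 → 2 ≤ r → (∀ i, (F.p i).r = r ∨ (F.p i).r = 1) →
    (∀ j, (F.q j).r = r ∨ (F.q j).r = 1) → DenF F.f → 0 < ε → ∃ T₀ : ℝ, ∀ T : ℝ, T₀ ≤ T →
    ∃ Z : Finset ℂ, T ^ (1 - ε) ≤ Z.card ∧ ∀ z ∈ Z, T ≤ z.im ∧ z.im ≤ 2 * T ∧ F.Exc z

/-- (DFL) the density condition for pairs. -/
def T_DFL : Prop :=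
  ∀ (P Q : LF) (a τ : ℝ) (ha : 0 < a), a ≠ 1 → DenL Q → DenF (prF P Q a τ ha).f

/-- (D2a) the theorem for Dirichlet `L`-functions and `a = 2`. -/
def T_D2a : Prop :=
  ∀ (ψ χ : PrimChar) (τ ε : ℝ), 0 < ε → ∃ T₀ : ℝ, ∀ T : ℝ, T₀ ≤ T →
    ∃ Z : Finset ℂ, T ^ (1 - ε) ≤ Z.card ∧ ∀ z ∈ Z, T ≤ z.im ∧ z.im ≤ 2 * T ∧
      analyticOrderAt ψ.L (wl 2 τ z) < analyticOrderAt χ.L z

/-- (D3) the theorem for Dirichlet `L`-functions. -/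
def T_D3 : Prop :=
  ∀ (ψ χ : PrimChar) (a τ ε : ℝ), 2 ≤ a → a < 7 / 3 → 0 < ε → ∃ T₀ : ℝ, ∀ T : ℝ, T₀ ≤ T →
    ∃ Z : Finset ℂ, T ^ (1 - ε) ≤ Z.card ∧ ∀ z ∈ Z, T ≤ z.im ∧ z.im ≤ 2 * T ∧
      analyticOrderAt ψ.L (wl a τ z) < analyticOrderAt χ.L z

/-- (FGD) the theorem for functions with the data of an `LF`. -/
def T_FGD : Prop :=
  ∀ (Λ M : ℂ → ℂ) (n m : ℕ) (a τ ε : ℝ), HK.Good Λ n → GoodD M m → 2 ≤ a →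
    1 < a * n - m → a * n - m < 4 / 3 → 0 < ε → ∃ T₀ : ℝ, ∀ T : ℝ, T₀ ≤ T →
    ∃ Z : Finset ℂ, T ^ (1 - ε) ≤ Z.card ∧ ∀ z ∈ Z, T ≤ z.im ∧ z.im ≤ 2 * T ∧
      meromorphicOrderAt Λ (wl a τ z) < meromorphicOrderAt M z

/-! ### Density of primes with large coefficients -/

/-- (DN0) a lower bound of Mertens type in logarithmic windows. -/
def T_DN0 : Prop :=
  ∀ (a L : ℕ → ℝ) (κ : ℝ), 0 < κ → (∀ n, 0 ≤ a n) → (∀ n, 0 ≤ L n) →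
    (∀ n : ℕ, 1 ≤ n → a n * Real.log n = ∑ q ∈ n.divisorsAntidiagonal, L q.1 * a q.2) →
    Tendsto (fun x : ℝ => (∑ n ∈ Finset.Icc 1 ⌊x⌋₊, a n) / x) atTop (𝓝 κ) →
    ∀ x₁ x₂ : ℝ, 0 < x₁ → x₁ < x₂ → ∃ c T₀ : ℝ, 0 < c ∧ ∀ T : ℝ, T₀ ≤ T →
      c * Real.log T ≤ ∑ m ∈ Finset.Ioc ⌊T ^ x₁⌋₊ ⌊T ^ x₂⌋₊, L m / m

/-- (DN1) prime ideals of degree one in logarithmic windows. -/
def T_DN1 : Prop :=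
  ∀ (K : Type) [Field K] [NumberField K] (x₁ x₂ : ℝ), 0 < x₁ → x₁ < x₂ → ∃ c T₀ : ℝ, 0 < c ∧
    ∀ T : ℝ, T₀ ≤ T →
      c * Real.log T ≤ ∑ p ∈ (Finset.Ioc ⌊T ^ x₁⌋₊ ⌊T ^ x₂⌋₊).filter Nat.Prime,
        (HK.spf K p 1 : ℝ) * Real.log p / p

/-- (DN2) the trace of Frobenius at primes with a prime ideal of degree one above them. -/
def T_DN2 : Prop :=
  ∀ R : DL.ArtinRep, ∃ S : Finset ℕ, ∀ p : Nat.Primes, (p : ℕ) ∉ S → HK.spf R.K p 1 ≠ 0 →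
    LinearMap.trace ℂ R.V (R.fr p) = R.dim

/-- (DYD) from logarithmic windows to dyadic blocks. -/
def T_DYD : Prop :=
  ∀ (w : ℕ → ℝ), (∀ n, 0 ≤ w n) → (∀ x₁ x₂ : ℝ, 0 < x₁ → x₁ < x₂ → ∃ c T₀ : ℝ, 0 < c ∧
    ∀ T : ℝ, T₀ ≤ T → c * Real.log T ≤
      ∑ p ∈ (Finset.Ioc ⌊T ^ x₁⌋₊ ⌊T ^ x₂⌋₊).filter Nat.Prime, w p * Real.log p / p) →
    ∀ x₁ x₂ ε : ℝ, 0 < x₁ → x₁ < x₂ → 0 < ε → ∃ T₀ : ℝ, ∀ T : ℝ, T₀ ≤ T → ∃ X : ℕ,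
    T ^ x₁ ≤ X ∧ (X : ℝ) ≤ T ^ x₂ ∧
      T ^ (-ε) ≤ ∑ p ∈ (Finset.Ico X (2 * X)).filter Nat.Prime, w p / p

/-- (AE2) the identity `Λ^N = ∏ ζ_K^a` with the coefficients at primes. -/
def T_AE2 : Prop :=
  ∀ (R : DL.ArtinRep), HK.Rat R → ∃ (N : ℕ) (s : Finset (Subgroup (R.K ≃ₐ[ℚ] R.K)))
    (a : Subgroup (R.K ≃ₐ[ℚ] R.K) → ℤ) (h : Fin R.dim → ℕ → ℂ), 1 ≤ N ∧
    (∀ g, (N : ℂ) * LinearMap.trace ℂ R.V (R.rho g) = ∑ H ∈ s, (a H : ℂ) * (HK.pc H g : ℂ)) ∧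
    (∀ j, h j 0 = 0) ∧ (∀ j, h j 1 = 1) ∧ (∀ j a b, h j (a * b) = h j a * h j b) ∧
    (∀ j a, ‖h j a‖ ≤ 1) ∧
    (∀ p : Nat.Primes, ∑ j, h j p = LinearMap.trace ℂ R.V (R.fr p)) ∧
    ∀ Λ : ℂ → ℂ, HK.IsArtin R Λ → ∀ z : ℂ, 1 < z.re →
      Λ z = ∏ j, ∑' m : ℕ, h j m * (m : ℂ) ^ (-z) ∧
      (∀ H, NumberField.dedekindZeta (HK.FF R H) z ≠ 0) ∧
      Λ z ^ N = ∏ H ∈ s, NumberField.dedekindZeta (HK.FF R H) z ^ (a H)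

/-- (AA2) an Artin `L`-function with rational character as an `LF` with coefficients. -/
def T_AA2 : Prop :=
  ∀ (R : DL.ArtinRep) (Λ : ℂ → ℂ), HK.Rat R → HK.IsArtin R Λ → ∃ L : DL.LF, L.n = R.dim ∧
    (∀ p : Nat.Primes, ∑ j, L.h j p = LinearMap.trace ℂ R.V (R.fr p)) ∧
    ∀ z : ℂ, 0 < z.im → analyticOrderAt L.den z ≠ ⊤ ∧ analyticOrderAt L.num z ≠ ⊤ ∧
      meromorphicOrderAt Λ z + meromorphicOrderAt L.den z = meromorphicOrderAt L.num z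

/-- (DNA) Artin `L`-functions. -/
def T_DNA : Prop :=
  ∀ (R : DL.ArtinRep) (Λ : ℂ → ℂ), HK.Rat R → HK.IsArtin R Λ → 1 ≤ R.dim → GoodD Λ R.dim

/-- (DND) Dirichlet `L`-functions. -/
def T_DND : Prop := ∀ π : PrimChar, ∀ L : LF, L.n = 1 →
  (∀ (i : Fin L.n) (m : ℕ), L.h i m = chz π m) → DenL L

end Pool.Agent.H25.DP
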